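import Pool.Agent.W672.QC.Q0

/-! Project QC: the target curvature and the density. -/

set_option autoImplicit false

open MeasureTheory Set Metric Filter Topology Real
open scoped ContDiff

namespace Pool.Agent.W672.QC

open Pool.Agent.W787.QC

theorem phi_aux (h1 : S_CUT) (Q M : E → ℝ) (hq : ContDiff ℝ ∞ Q) (hm : ContDiff ℝ ∞ M)
    (hq1 : Q e0 = 6) (hq2 : Q (-e0) = 6) (hd1 : fderiv ℝ Q e0 = 0) (hd2 : fderiv ℝ Q (-e0) = 0)
    (hm0 : ∀ y : E, y ≠ e0 → y ≠ -e0 → M y ≠ 0) (δ : ℝ) (hδ : 0 < δ) :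
    ∃ p Φ : E → ℝ, ContDiff ℝ ∞ p ∧ ContDiff ℝ ∞ Φ ∧
    (∀ y, |p y - 6| ≤ δ ∧ ‖fderiv ℝ p y‖ ≤ δ) ∧ ∀ y, Q y + M y * Φ y = p y := by
  have hg : ContDiff ℝ ∞ (fun y => Q y - 6) := hq.sub contDiff_const
  obtain ⟨f1, hf1, hf1g, hf10, hf1b⟩ := h1 (fun y => Q y - 6) e0 hg (by
    show Q e0 - 6 = 0
    rw [hq1, sub_self]) (by rw [fderiv_sub_const]; exact hd1) (δ / 2) 1 (by positivity) one_pos
  obtain ⟨f2, hf2, hf2g, hf20, hf2b⟩ := h1 (fun y => Q y - 6) (-e0) hg (by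
    show Q (-e0) - 6 = 0
    rw [hq2, sub_self]) (by rw [fderiv_sub_const]; exact hd2) (δ / 2) 1 (by positivity) one_pos
  have hdist : dist (e0 : E) (-e0) = 2 := by
    rw [dist_eq_norm, sub_neg_eq_add, ← two_smul ℝ, norm_smul, norm_e0]
    norm_num
  -- near the two points
  have hn1 : ∀ᶠ y in 𝓝 (e0 : E), 6 + f1 y + f2 y = Q y := by
    have h3 : ∀ᶠ y in 𝓝 (e0 : E), 1 ≤ dist y (-e0) := by
      filter_upwards [ball_mem_nhds (e0 : E) one_pos] with y hy
      have h4 := dist_triangle (e0 : E) y (-e0)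
      rw [hdist, dist_comm e0 y] at h4
      have h5 : dist y e0 < 1 := hy
      linarith
    filter_upwards [hf1g, h3] with y hy1 hy2
    rw [hy1, hf20 y hy2]
    ring
  have hn2 : ∀ᶠ y in 𝓝 (-e0 : E), 6 + f1 y + f2 y = Q y := by
    have h3 : ∀ᶠ y in 𝓝 (-e0 : E), 1 ≤ dist y e0 := by
      filter_upwards [ball_mem_nhds (-e0 : E) one_pos] with y hy
      have h4 := dist_triangle (e0 : E) y (-e0)
      rw [hdist, dist_comm e0 y] at h4
      have h5 : dist y (-e0) < 1 := hy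
      linarith
    filter_upwards [hf2g, h3] with y hy1 hy2
    rw [hy1, hf10 y hy2]
    ring
  have hp : ContDiff ℝ ∞ (fun y => 6 + f1 y + f2 y) := (contDiff_const.add hf1).add hf2
  refine ⟨fun y => 6 + f1 y + f2 y, fun y => (6 + f1 y + f2 y - Q y) / M y, hp, ?_, ?_, ?_⟩
  · rw [contDiff_iff_contDiffAt]
    intro y
    by_cases hy1 : y = e0
    · subst hy1
      refine (contDiffAt_const (c := (0 : ℝ))).congr_of_eventuallyEq ?_
      filter_upwards [hn1] with z hz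
      rw [hz, sub_self, zero_div]
    · by_cases hy2 : y = -e0
      · subst hy2
        refine (contDiffAt_const (c := (0 : ℝ))).congr_of_eventuallyEq ?_
        filter_upwards [hn2] with z hz
        rw [hz, sub_self, zero_div]
      · exact ((hp.sub hq).contDiffAt).div hm.contDiffAt (hm0 y hy1 hy2)
  · intro y
    have h3 := hf1b y
    have h4 := hf2b y
    constructor
    · have h5 : 6 + f1 y + f2 y - 6 = f1 y + f2 y := by ring
      show |6 + f1 y + f2 y - 6| ≤ δ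
      rw [h5]
      have := abs_add_le (f1 y) (f2 y)
      linarith [h3.1, h4.1]
    · have h5 : fderiv ℝ (fun y => 6 + f1 y + f2 y) y = fderiv ℝ f1 y + fderiv ℝ f2 y := by
        have e1 : HasFDerivAt f1 (fderiv ℝ f1 y) y :=
          (hf1.differentiable (by simp) y).hasFDerivAt
        have e2 : HasFDerivAt f2 (fderiv ℝ f2 y) y :=
          (hf2.differentiable (by simp) y).hasFDerivAt
        exact ((e1.const_add 6).fun_add e2).fderiv
      rw [h5]
      have := norm_add_le (fderiv ℝ f1 y) (fderiv ℝ f2 y)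
      linarith [h3.2, h4.2]
  · intro y
    show Q y + M y * ((6 + f1 y + f2 y - Q y) / M y) = 6 + f1 y + f2 y
    by_cases hy1 : y = e0
    · subst hy1
      rw [hn1.self_of_nhds, sub_self, zero_div, mul_zero, add_zero]
    · by_cases hy2 : y = -e0
      · subst hy2
        rw [hn2.self_of_nhds, sub_self, zero_div, mul_zero, add_zero]
      · rw [mul_div_cancel₀ _ (hm0 y hy1 hy2)]
        ring

theorem m_ne (y : E) (hy1 : y ≠ e0) (hy2 : y ≠ -e0) : m 0 y ≠ 0 := by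
  unfold m
  have h3 : ‖y - e0‖ ≠ 0 := norm_ne_zero_iff.2 (sub_ne_zero.2 hy1)
  have h4 : ‖y + e0‖ ≠ 0 := norm_ne_zero_iff.2 (fun h => hy2 (eq_neg_of_add_eq_zero_left h))
  have h5 : (0 : ℝ) ^ 2 + ‖y - e0‖ ^ 2 ≠ 0 := by positivity
  have h6 : (0 : ℝ) ^ 2 + ‖y + e0‖ ^ 2 ≠ 0 := by positivity
  exact mul_ne_zero (mul_ne_zero (mul_ne_zero (by norm_num) (pow_ne_zero _ h5)) (pow_ne_zero _ h6))
    (Real.exp_ne_zero _)

theorem slice (G : ℝ × E → ℝ) (h : ContDiff ℝ ∞ G) : ContDiff ℝ ∞ (fun y => G (0, y)) := by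
  have hemb : ContDiff ℝ ∞ (fun y : E => ((0 : ℝ), y)) := contDiff_const.prodMk contDiff_id
  exact h.comp hemb

theorem q_smooth (h2 : S_Q0) : ContDiff ℝ ∞ (fun y => q 0 y) :=
  slice (fun z => q z.1 z.2) h2.2.2.2.2.1

theorem m_smooth (h2 : S_Q0) : ContDiff ℝ ∞ (fun y => m 0 y) :=
  slice (fun z => m z.1 z.2) h2.2.2.2.2.2

theorem phi (h1 : S_CUT) (h2 : S_Q0) : S_PHI :=
  phi_aux h1 (q 0) (m 0) (q_smooth h2) (m_smooth h2) h2.1 h2.2.1 h2.2.2.1 h2.2.2.2.1 m_ne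

end Pool.Agent.W672.QC
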