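import Pool.Agent.W787.QC.Defs

/-! Project QC: the curvature at the bubbles, the target curvature and the density. -/

set_option autoImplicit false

open MeasureTheory Set Metric Filter Topology Real
open scoped ContDiff

namespace Pool.Agent.W672.QC

open Pool.Agent.W787.QC

theorem norm_add_e0 (y : E) : ‖y + e0‖ ^ 2 = ‖y‖ ^ 2 + 2 * y 0 + 1 := by
  rw [e0, @norm_add_sq_real, PiLp.norm_single, EuclideanSpace.inner_single_right]
  simp

theorem norm_sub_e0 (y : E) : ‖y - e0‖ ^ 2 = ‖y‖ ^ 2 - 2 * y 0 + 1 := by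
  rw [e0, @norm_sub_sq_real, PiLp.norm_single, EuclideanSpace.inner_single_right]
  simp

theorem q_zero (y : E) : q 0 y = 3 / 128 * ((‖y‖ ^ 2 + 2 * y 0 + 1) ^ 4 +
    (‖y‖ ^ 2 - 2 * y 0 + 1) ^ 4) * Real.exp (-2 * ((y 0) ^ 2 - 1)) := by
  unfold q
  rw [norm_add_e0, norm_sub_e0]
  ring_nf

theorem e0_zero : (e0 : E) 0 = 1 := by
  simp [e0]

theorem norm_e0 : ‖(e0 : E)‖ = 1 := by
  simp [e0]

theorem dq (p : E) (c : ℝ) (hp : p 0 = c) (hc : c = 1 ∨ c = -1) (hN : ‖p‖ ^ 2 = 1)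
    (hin : ∀ v : E, inner ℝ p v = c * v 0) : HasFDerivAt (q 0) (0 : E →L[ℝ] ℝ) p := by
  have h0 : q 0 = fun y : E => 3 / 128 * ((‖y‖ ^ 2 + 2 * y 0 + 1) ^ 4 +
    (‖y‖ ^ 2 - 2 * y 0 + 1) ^ 4) * Real.exp (-2 * ((y 0) ^ 2 - 1)) := funext q_zero
  rw [h0]
  have hc' : HasFDerivAt (fun y : E => y 0) (EuclideanSpace.proj (0 : Fin 4) : E →L[ℝ] ℝ) p :=
    (EuclideanSpace.proj (0 : Fin 4) : E →L[ℝ] ℝ).hasFDerivAt
  have hN' : HasFDerivAt (fun y : E => ‖y‖ ^ 2)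
      (2 • (innerSL ℝ p).comp (ContinuousLinearMap.id ℝ E)) p := (hasFDerivAt_id p).norm_sq
  have ha : HasFDerivAt (fun y : E => ‖y‖ ^ 2 + 2 * y 0 + 1) _ p :=
    (hN'.fun_add (hc'.const_mul 2)).add_const 1
  have hb : HasFDerivAt (fun y : E => ‖y‖ ^ 2 - 2 * y 0 + 1) _ p :=
    (hN'.fun_sub (hc'.const_mul 2)).add_const 1
  have h1 := (HasFDerivAt.fun_add (HasFDerivAt.pow ha 4) (HasFDerivAt.pow hb 4)).const_mul
    (3 / 128)
  have h2 := (((HasFDerivAt.pow hc' 2).sub_const 1).const_mul (-2)).exp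
  have h3 := HasFDerivAt.fun_mul h1 h2
  refine h3.congr_fderiv ?_
  ext v
  have hv : (EuclideanSpace.proj (0 : Fin 4) : E →L[ℝ] ℝ) v = v 0 := rfl
  simp only [add_apply, smul_apply,
    sub_apply, ContinuousLinearMap.comp_apply, ContinuousLinearMap.id_apply,
    innerSL_apply_apply, zero_apply, hv, hp, hN, hin, smul_eq_mul,
    nsmul_eq_mul]
  rcases hc with rfl | rfl
  · norm_num
    ring
  · norm_num
    ring

theorem q0 : S_Q0 := by
  have hin1 : ∀ v : E, inner ℝ e0 v = (1 : ℝ) * v 0 := by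
    intro v
    rw [e0, EuclideanSpace.inner_single_left]
    simp
  have hin2 : ∀ v : E, inner ℝ (-e0) v = (-1 : ℝ) * v 0 := by
    intro v
    rw [inner_neg_left, hin1]
    ring
  have hc0 : ContDiff ℝ ∞ (fun z : ℝ × E => z.2 0) :=
    ((EuclideanSpace.proj (0 : Fin 4) : E →L[ℝ] ℝ).contDiff).comp contDiff_snd
  have hcp : ContDiff ℝ ∞ (fun z : ℝ × E => ‖z.2 + e0‖ ^ 2) :=
    (contDiff_snd.add contDiff_const).norm_sq ℝ
  have hcm : ContDiff ℝ ∞ (fun z : ℝ × E => ‖z.2 - e0‖ ^ 2) :=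
    (contDiff_snd.sub contDiff_const).norm_sq ℝ
  have hcs : ContDiff ℝ ∞ (fun z : ℝ × E => z.1 ^ 2) := contDiff_fst.pow 2
  have hce : ContDiff ℝ ∞ (fun z : ℝ × E => Real.exp (-2 * ((z.2 0) ^ 2 - 1))) :=
    (contDiff_const.mul ((hc0.pow 2).sub contDiff_const)).exp
  refine ⟨?_, ?_, ?_, ?_, ?_, ?_⟩
  · rw [q_zero, norm_e0, e0_zero]
    norm_num
  · rw [q_zero, norm_neg, norm_e0]
    have : (-e0 : E) 0 = -1 := by
      rw [PiLp.neg_apply, e0_zero]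
    rw [this]
    norm_num
  · exact (dq e0 1 e0_zero (Or.inl rfl) (by rw [norm_e0]; norm_num) hin1).fderiv
  · refine (dq (-e0) (-1) ?_ (Or.inr rfl) (by rw [norm_neg, norm_e0]; norm_num) hin2).fderiv
    rw [PiLp.neg_apply, e0_zero]
  · unfold q
    exact (contDiff_const.mul (((hcs.add hcp).pow 4).add ((hcs.add hcm).pow 4))).mul hce
  · unfold m
    exact ((contDiff_const.mul ((hcs.add hcm).pow 4)).mul ((hcs.add hcp).pow 4)).mul hce


end Pool.Agent.W672.QC
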